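import Pool.Agent.H209R3.Gen8

set_option autoImplicit false

namespace Pool.Agent.Results.MP_43acf5_nt.ConstantExtensions

open Pool.Agent.H209R3.Gen

/-- Let F_q be a finite field with q ≥ 3 elements and L = k(T) for any extension field k of F_q
(so that L ranges over all constant field extensions of F = F_q(T)). For every rank-2 Drinfeld
F_q[T]-module φ over L, given by φ_T(x) = T x + g x^q + Δ x^(q^2) with g, Δ in L and Δ ≠ 0, the
torsion submodule of L under φ, i.e. the set of points of L with finite orbit under φ_T, has at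
most q^2 elements. -/
theorem result :
    ∀ (Fq k : Type) [Field Fq] [Fintype Fq] [Field k] [Algebra Fq k], 3 ≤ Fintype.card Fq →
      ∀ (g Δ : RatFunc k), Δ ≠ 0 → ∀ φT : RatFunc k → RatFunc k,
      (∀ x, φT x = RatFunc.X * x + g * x ^ Fintype.card Fq + Δ * x ^ (Fintype.card Fq ^ 2)) →
      {x : RatFunc k | (Set.range (fun n : ℕ => φT^[n] x)).Finite}.encard
        ≤ ((Fintype.card Fq ^ 2 : ℕ) : ℕ∞) := by
  intro Fq k _ _ _ _ hq g Δ hΔ f hf
  obtain ⟨p, hchar⟩ := CharP.exists Fq
  obtain ⟨n, hp, hcard⟩ := FiniteField.card Fq p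
  haveI : Fact p.Prime := ⟨hp⟩
  have hchar2 : CharP k p := charP_of_injective_algebraMap (algebraMap Fq k).injective p
  rw [hcard] at hq ⊢
  rw [hcard] at hf
  have h1 := boundAff p n hq 0 g Δ hΔ
  have hfeq : f = fun y : RatFunc k => 0 + RatFunc.X * y + g * y ^ p ^ (n : ℕ)
      + Δ * y ^ ((p ^ (n : ℕ)) ^ 2) := by
    funext y
    rw [hf y, zero_add]
  rw [← hfeq] at h1
  refine le_trans (Set.encard_le_encard ?_) h1
  intro x hx
  have h4 : ¬ Function.Injective (fun i : ℕ => f^[i] x) := fun hi =>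
    Set.infinite_range_of_injective hi hx
  simp only [Function.Injective, not_forall] at h4
  obtain ⟨a, b, hab, hne⟩ := h4
  rcases Nat.lt_or_gt_of_ne hne with hlt | hlt
  · exact ⟨a, b, hlt, hab⟩
  · exact ⟨b, a, hlt, hab.symm⟩

end Pool.Agent.Results.MP_43acf5_nt.ConstantExtensions
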