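import Pool.Agent.H209R3.Fun8
import Pool.Agent.H209R3.Gen8

set_option autoImplicit false

namespace Pool.Agent.Results.MP_43acf5_nt.EveryExtension

open Pool.Agent.H209R3 Pool.Agent.H209R3.Gen Pool.Agent.H209R3.Fun Polynomial

lemma X_not_pow (k : Type) [Field k] (L : Type) [Field L] [Algebra (RatFunc k) L] (p : ℕ)
    [Fact p.Prime] [CharP k p] [Algebra.IsSeparable (RatFunc k) L] (a : L) :
    a ^ p ≠ algebraMap (RatFunc k) L RatFunc.X := by
  intro ha
  have : ExpChar (RatFunc k) p := ExpChar.prime Fact.out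
  have h1 := IntermediateField.adjoin_simple_eq_adjoin_pow_expChar_of_isSeparable'
    (RatFunc k) L a p
  have h2 : a ∈ IntermediateField.adjoin (RatFunc k) {a} :=
    IntermediateField.mem_adjoin_simple_self _ a
  rw [h1, ha] at h2
  have h3 : IntermediateField.adjoin (RatFunc k) {algebraMap (RatFunc k) L RatFunc.X} = ⊥ :=
    IntermediateField.adjoin_simple_eq_bot_iff.2 (IntermediateField.mem_bot.2 ⟨_, rfl⟩)
  rw [h3, IntermediateField.mem_bot] at h2
  obtain ⟨b, rfl⟩ := h2
  rw [← map_pow] at ha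
  have h4 : b ^ p = RatFunc.X := (algebraMap (RatFunc k) L).injective ha
  have hden : b.denom ≠ 0 := b.denom_ne_zero
  have hden' : algebraMap k[X] (RatFunc k) b.denom ≠ 0 := by
    intro h0
    exact hden (IsFractionRing.injective k[X] (RatFunc k) (h0.trans (map_zero _).symm))
  have h5 : b.num ^ p = X * b.denom ^ p := by
    apply IsFractionRing.injective k[X] (RatFunc k)
    rw [map_mul, map_pow, map_pow, RatFunc.algebraMap_X, ← h4]
    rw [(div_eq_iff hden').1 (RatFunc.num_div_denom b), mul_pow]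
  have h6 := congrArg natDegree h5
  rw [natDegree_pow, natDegree_mul X_ne_zero (pow_ne_zero _ hden), natDegree_X,
    natDegree_pow] at h6
  have h7 : p ∣ 1 := by
    have h8 : p ∣ 1 + p * b.denom.natDegree := by rw [← h6]; exact Dvd.intro _ rfl
    exact (Nat.dvd_add_left (Dvd.intro _ rfl)).1 h8
  exact (Fact.out : p.Prime).one_lt.ne' (Nat.dvd_one.1 h7)

/-- Let F = F_q(T) with q ≥ 3 and let L be a finite separable extension of F. There is a bound
B = B(q, L) such that for every rank-2 Drinfeld F_q[T]-module φ over L, given by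
φ_T(x) = T x + g x^q + Δ x^(q^2) with g, Δ in L and Δ ≠ 0, the torsion submodule of L (the set of
x in L with finite orbit under φ_T) has at most B elements. -/
theorem result :
    ∀ (Fq : Type) [Field Fq] [Fintype Fq] (L : Type) [Field L] [Algebra (RatFunc Fq) L]
      [FiniteDimensional (RatFunc Fq) L] [Algebra.IsSeparable (RatFunc Fq) L],
      3 ≤ Fintype.card Fq → ∃ B : ℕ, ∀ g Δ : L, Δ ≠ 0 → ∀ φT : L → L,
      (∀ x, φT x = algebraMap (RatFunc Fq) L RatFunc.X * x + g * x ^ Fintype.card Fq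
        + Δ * x ^ (Fintype.card Fq ^ 2)) →
      {x : L | (Set.range (fun n : ℕ => φT^[n] x)).Finite}.encard ≤ (B : ℕ∞) := by
  intro Fq _ _ L _ _ _ _ hq
  obtain ⟨p, hchar⟩ := CharP.exists Fq
  obtain ⟨n, hp, hcard⟩ := FiniteField.card Fq p
  haveI : Fact p.Prime := ⟨hp⟩
  letI : Algebra Fq L := Algebra.compHom L (algebraMap Fq (RatFunc Fq))
  haveI : IsScalarTower Fq (RatFunc Fq) L := IsScalarTower.of_algebraMap_eq (fun _ => rfl)
  haveI : CharP L p := charP_of_injective_algebraMap (algebraMap Fq L).injective p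
  obtain ⟨T, hT⟩ : ∃ T : L, T = algebraMap (RatFunc Fq) L RatFunc.X := ⟨_, rfl⟩
  have hTp : ∀ a : L, a ^ p ≠ T := by
    intro a; rw [hT]; exact X_not_pow Fq L p a
  rw [hcard] at hq
  let U : Submodule Fq L := Submodule.span Fq {1, T}
  haveI : FiniteDimensional Fq U := FiniteDimensional.span_of_finite Fq (Set.toFinite _)
  obtain ⟨B, hB⟩ := ubpL Fq L p n hq U
  refine ⟨B, ?_⟩
  intro g Δ hΔ f hf
  rw [hcard, ← hT] at hf
  have h1 := hB T hTp ⟨T, Submodule.subset_span (by simp), 1, Submodule.subset_span (by simp),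
    one_ne_zero, by rw [div_one]⟩ g Δ hΔ f (by
      intro y
      rw [hf y, pow_two, pow_mul])
  refine le_trans (Set.encard_le_encard ?_) h1
  intro x hx
  have h4 : ¬ Function.Injective (fun i : ℕ => f^[i] x) := fun hi =>
    Set.infinite_range_of_injective hi hx
  simp only [Function.Injective, not_forall] at h4
  obtain ⟨a, b, hab, hne⟩ := h4
  rcases Nat.lt_or_gt_of_ne hne with hlt | hlt
  · exact ⟨a, b, hlt, hab⟩
  · exact ⟨b, a, hlt, hab.symm⟩

end Pool.Agent.Results.MP_43acf5_nt.EveryExtension
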