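import Pool.Agent.H209R3.Fun10

set_option autoImplicit false

namespace Pool.Agent.Results.MP_43acf5_nt.GenusZeroExtensions

open Pool.Agent.H209R3 Pool.Agent.H209R3.Gen Pool.Agent.H209R3.Fun Polynomial

/-- Let F_q be a finite field with q ≥ 3 elements, k any extension field of F_q, and θ = u/v in
L = k(X) with u, v of degree at most d and u'v - uv' ≠ 0, so that T ↦ θ makes L a separable
extension of F_q(T). For every rank-2 Drinfeld F_q[T]-module over L, given by
φ_T(x) = θ x + g x^q + Δ x^(q^2) with g, Δ in L, Δ ≠ 0, the torsion submodule of L has at most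
q^(2(8d+1)^2+2) elements; the bound depends only on q and d. -/
theorem result :
    ∀ (Fq k : Type) [Field Fq] [Fintype Fq] [Field k] [Algebra Fq k], 3 ≤ Fintype.card Fq →
      ∀ (d : ℕ) (u v : k[X]), u.natDegree ≤ d → v.natDegree ≤ d → v ≠ 0 →
      derivative u * v - u * derivative v ≠ 0 →
      ∀ (g Δ : RatFunc k), Δ ≠ 0 → ∀ φT : RatFunc k → RatFunc k,
      (∀ x, φT x = algebraMap k[X] (RatFunc k) u / algebraMap k[X] (RatFunc k) v * x
        + g * x ^ Fintype.card Fq + Δ * x ^ (Fintype.card Fq ^ 2)) →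
      {x : RatFunc k | (Set.range (fun n : ℕ => φT^[n] x)).Finite}.encard
        ≤ ((Fintype.card Fq ^ (2 * (8 * d + 1) * (8 * d + 1) + 2) : ℕ) : ℕ∞) := by
  intro Fq k _ _ _ _ hq d u v hu hv hv0 hsep g Δ hΔ f hf
  obtain ⟨p, hchar⟩ := CharP.exists Fq
  obtain ⟨n, hp, hcard⟩ := FiniteField.card Fq p
  haveI : Fact p.Prime := ⟨hp⟩
  have hchar2 : CharP k p := charP_of_injective_algebraMap (algebraMap Fq k).injective p
  rw [hcard] at hq ⊢
  rw [hcard] at hf
  have h1 := gz p n hq d u v hu hv hv0 hsep 0 g Δ hΔ f (by intro y; rw [hf y, zero_add])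
  refine le_trans (Set.encard_le_encard ?_) h1
  intro x hx
  have h4 : ¬ Function.Injective (fun i : ℕ => f^[i] x) := fun hi =>
    Set.infinite_range_of_injective hi hx
  simp only [Function.Injective, not_forall] at h4
  obtain ⟨a, b, hab, hne⟩ := h4
  rcases Nat.lt_or_gt_of_ne hne with hlt | hlt
  · exact ⟨a, b, hlt, hab⟩
  · exact ⟨b, a, hlt, hab.symm⟩

end Pool.Agent.Results.MP_43acf5_nt.GenusZeroExtensions
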